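import Pool.Agent.P8H63.RS.Stm

/-!
# Project RS, parts STB and ABS
-/

set_option autoImplicit false
set_option linter.all false

namespace Pool.Agent.P8H59.RS

open Module
open Pool.Agent.P8H63.RS
open Pool.Agent.W332.OK (tw NN exists_rat)

variable {κ : Type} [Field κ] [Algebra ℚ κ] {n : ℕ} {E : Type} [AddCommGroup E] [Module κ E]

theorem bP_eq_zero {β : (Fin n → κ) →ₗ[κ] (Fin n → κ) →ₗ[κ] E} {P : E} {w v : Fin n → κ} :
    bP β P w v = 0 ↔ ∃ c : κ, β w v = c • P := by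
  unfold bP
  rw [LinearMap.compr₂_apply, Submodule.mkQ_apply, Submodule.Quotient.mk_eq_zero,
    Submodule.mem_span_singleton]
  constructor
  · rintro ⟨c, hc⟩
    exact ⟨c, hc.symm⟩
  · rintro ⟨c, hc⟩
    exact ⟨c, hc.symm⟩

theorem gal_bP {β : (Fin n → κ) →ₗ[κ] (Fin n → κ) →ₗ[κ] E} {P : E} (hG : Gal β P)
    (σ : κ ≃ₐ[ℚ] κ) (w v : Fin n → κ) (h : bP β P w v = 0) :
    bP β P (fun i => σ (w i)) (fun i => σ (v i)) = 0 := by
  rw [bP_eq_zero] at h ⊢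
  obtain ⟨c, hc⟩ := h
  exact ⟨σ c, hG σ w v c hc⟩

variable [IsGalois ℚ κ]

theorem rat_coef {β : (Fin n → κ) →ₗ[κ] (Fin n → κ) →ₗ[κ] E} {P : E} (hG : Gal β P)
    (hN : NoZero β) {w v : Fin n → ℚ} (hw : w ≠ 0) (hv : v ≠ 0)
    (h : bP β P (fun i => algebraMap ℚ κ (w i)) (fun i => algebraMap ℚ κ (v i)) = 0) :
    ∃ q : ℚ, q ≠ 0 ∧ β (fun i => algebraMap ℚ κ (w i)) (fun i => algebraMap ℚ κ (v i)) =
      algebraMap ℚ κ q • P := by
  rw [bP_eq_zero] at h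
  obtain ⟨c, hc⟩ := h
  have hne := hN w v hw hv
  have hP : P ≠ 0 := by
    rintro rfl
    rw [smul_zero] at hc
    exact hne hc
  have hfix : ∀ σ : κ ≃ₐ[ℚ] κ, σ c = c := by
    intro σ
    have h1 := hG σ _ _ c hc
    simp only [AlgEquiv.commutes] at h1
    rw [hc] at h1
    have h2 : (c - σ c) • P = 0 := by rw [sub_smul, h1, sub_self]
    rcases smul_eq_zero.mp h2 with h3 | h3
    · exact (sub_eq_zero.mp h3).symm
    · exact absurd h3 hP
  have h1 : c ∈ (⊥ : IntermediateField ℚ κ) :=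
    (InfiniteGalois.mem_bot_iff_fixed c).2 (fun σ => hfix σ)
  rw [IntermediateField.mem_bot] at h1
  obtain ⟨q, hq⟩ := h1
  refine ⟨q, ?_, by rw [hq]; exact hc⟩
  rintro rfl
  rw [map_zero] at hq
  rw [← hq, zero_smul] at hc
  exact hne hc

theorem two_rat (X : Submodule κ (Fin n → κ)) (h2 : 2 ≤ finrank κ X)
    (hσ : ∀ σ : κ ≃ₐ[ℚ] κ, ∀ x ∈ X, (fun i => σ (x i)) ∈ X) :
    ∃ (v v' : Fin n → ℚ) (i0 : Fin n), v i0 ≠ 0 ∧ v' ≠ 0 ∧ v' i0 = 0 ∧
      (fun i => algebraMap ℚ κ (v i)) ∈ X ∧ (fun i => algebraMap ℚ κ (v' i)) ∈ X := by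
  have hX : X ≠ ⊥ := by
    rintro rfl
    rw [finrank_bot] at h2
    omega
  obtain ⟨v, hv, hvX⟩ := exists_rat X hX hσ
  obtain ⟨i0, hi0⟩ : ∃ i, v i ≠ 0 := by
    by_contra h
    push Not at h
    exact hv (funext h)
  have hX' : X ⊓ LinearMap.ker (LinearMap.proj (R := κ) (φ := fun _ : Fin n => κ) i0) ≠ ⊥ := by
    intro hbot
    have hinj : Function.Injective
        ((LinearMap.proj (R := κ) (φ := fun _ : Fin n => κ) i0).comp X.subtype) := by
      rw [← LinearMap.ker_eq_bot, LinearMap.ker_eq_bot']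
      intro x hx
      have h3 : (x : Fin n → κ) ∈ X ⊓
          LinearMap.ker (LinearMap.proj (R := κ) (φ := fun _ : Fin n => κ) i0) := ⟨x.2, hx⟩
      rw [hbot, Submodule.mem_bot] at h3
      exact Subtype.ext h3
    have h4 := LinearMap.finrank_le_finrank_of_injective hinj
    rw [finrank_self] at h4
    omega
  obtain ⟨v', hv', hv'X⟩ := exists_rat _ hX' (by
    intro σ x hx
    refine ⟨hσ σ x hx.1, ?_⟩
    have h3 : x i0 = 0 := hx.2
    show σ (x i0) = 0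
    rw [h3, map_zero])
  refine ⟨v, v', i0, hi0, hv', ?_, hvX, hv'X.1⟩
  have h3 : algebraMap ℚ κ (v' i0) = 0 := hv'X.2
  exact (map_eq_zero_iff _ (algebraMap ℚ κ).injective).mp h3

theorem NN_stable {β : (Fin n → κ) →ₗ[κ] (Fin n → κ) →ₗ[κ] E} {P : E} (hG : Gal β P)
    {Z : Submodule κ (Fin n → κ)} (hσ : ∀ σ : κ ≃ₐ[ℚ] κ, ∀ x ∈ Z, (fun i => σ (x i)) ∈ Z)
    (σ : κ ≃ₐ[ℚ] κ) (w : Fin n → κ) (hw : w ∈ NN (bP β P) Z) :
    (fun i => σ (w i)) ∈ NN (bP β P) Z := by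
  intro x hx
  have h1 := hw _ (hσ σ.symm x hx)
  have h2 := gal_bP hG σ _ _ h1
  simpa only [AlgEquiv.apply_symm_apply] using h2

/-- the rational combination -/
theorem comb {v v' : Fin n → ℚ} {i0 : Fin n} (h0 : v i0 ≠ 0) (h' : v' i0 = 0) {q q' : ℚ}
    (hq' : q' ≠ 0) :
    (fun i => q' * v i - q * v' i) ≠ 0 ∧
    (fun i => algebraMap ℚ κ (q' * v i - q * v' i)) =
      algebraMap ℚ κ q' • (fun i => algebraMap ℚ κ (v i)) -
      algebraMap ℚ κ q • (fun i => algebraMap ℚ κ (v' i)) := by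
  constructor
  · intro h
    have h1 := congrFun h i0
    simp only [h', mul_zero, sub_zero, Pi.zero_apply] at h1
    rcases mul_eq_zero.mp h1 with h2 | h2
    · exact hq' h2
    · exact h0 h2
  · funext i
    simp only [map_sub, map_mul, Pi.sub_apply, Pi.smul_apply, smul_eq_mul]

/-- **STB** -/
theorem stb : S_STB := by
  intro κ _ _ _ n E _ _ β P hG hN Z hZ hσ
  have hst := fun σ w hw => NN_stable (β := β) (P := P) hG hσ σ w hw
  constructor
  · by_contra hcon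
    push Not at hcon
    obtain ⟨v, hv, hvZ⟩ := exists_rat Z hZ hσ
    obtain ⟨w, w', i0, hw0, hw', hw'0, hwN, hw'N⟩ := two_rat (NN (bP β P) Z) hcon hst
    have hw : w ≠ 0 := fun h => hw0 (by rw [h]; rfl)
    obtain ⟨q, hq, e1⟩ := rat_coef hG hN hw hv (hwN _ hvZ)
    obtain ⟨q', hq', e2⟩ := rat_coef hG hN hw' hv (hw'N _ hvZ)
    obtain ⟨c1, c2⟩ := comb (κ := κ) hw0 hw'0 (q := q) hq'
    refine hN _ v c1 hv ?_
    rw [c2, map_sub, map_smul, map_smul, LinearMap.sub_apply, LinearMap.smul_apply,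
      LinearMap.smul_apply, e1, e2, smul_smul, smul_smul, mul_comm, sub_self]
  · intro h2
    by_contra hcon
    obtain ⟨w, hw, hwN⟩ := exists_rat (NN (bP β P) Z) hcon hst
    obtain ⟨v, v', i0, hv0, hv', hv'0, hvZ, hv'Z⟩ := two_rat Z h2 hσ
    have hv : v ≠ 0 := fun h => hv0 (by rw [h]; rfl)
    obtain ⟨q, hq, e1⟩ := rat_coef hG hN hw hv (hwN _ hvZ)
    obtain ⟨q', hq', e2⟩ := rat_coef hG hN hw hv' (hwN _ hv'Z)
    obtain ⟨c1, c2⟩ := comb (κ := κ) hv0 hv'0 (q := q) hq'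
    refine hN w _ hw c1 ?_
    rw [c2, map_sub, map_smul, map_smul, e1, e2, smul_smul, smul_smul, mul_comm, sub_self]

/-- **ABS** -/
theorem abs (hS : S_SLO) (hT : S_STB) : S_ABS := by
  intro κ _ _ _ n E _ _ β P hG hN R U m hUR hU hR hm
  obtain ⟨Z, z1, z2, z3, z4⟩ := hS κ n (E ⧸ Submodule.span κ {P}) (bP β P)
    (fun σ w v h => gal_bP hG σ w v h) R U hUR hU
  obtain ⟨t1, t2⟩ := hT κ n E β P hG hN Z z1 z3
  have hZR : Z ≤ R := z2.trans (iSup_le hR)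
  have hZm : finrank κ Z ≤ m := (Submodule.finrank_mono hZR).trans hm
  have hZ1 : 1 ≤ finrank κ Z := by
    rw [Nat.one_le_iff_ne_zero]
    intro h
    rw [Submodule.finrank_eq_zero] at h
    exact z1 h
  rcases Nat.lt_or_ge (finrank κ Z) 2 with h | h
  · right
    have h1 : finrank κ Z = 1 := by omega
    rw [h1, mul_one] at z4
    refine le_trans (Nat.mul_le_mul_right _ ?_) z4
    omega
  · left
    rw [t2 h, finrank_bot, Nat.sub_zero] at z4
    exact z4.trans (Nat.mul_le_mul_left _ hZm)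

end Pool.Agent.P8H59.RS
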